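import Pool.Agent.Helper75.KM.StmtsC

set_option autoImplicit false

namespace Pool.Agent.Helper75.KM

open MeasureTheory
open scoped ENNReal

theorem jen_holder {X : Type*} [MeasurableSpace X] (μ : Measure X) (f : X → ℝ≥0∞)
    (hf : Measurable f) (d : ℝ) (hd : 1 ≤ d) :
    (∫⁻ y, f y ∂μ) ^ d ≤ (∫⁻ y, f y ^ d ∂μ) * μ Set.univ ^ (d - 1) := by
  rcases eq_or_lt_of_le hd with h1 | h1
  · rw [← h1]
    simp
  have hq : d.HolderConjugate d.conjExponent := Real.HolderConjugate.conjExponent h1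
  have h := ENNReal.lintegral_mul_le_Lp_mul_Lq μ hq hf.aemeasurable
    (g := fun _ => (1 : ℝ≥0∞)) aemeasurable_const
  have h2 : (∫⁻ y, f y ∂μ) ≤ (∫⁻ y, f y ^ d ∂μ) ^ (1 / d) * (μ Set.univ) ^ (1 / d.conjExponent) := by
    simpa using h
  have hd0 : 0 < d := by linarith
  have h3 := ENNReal.rpow_le_rpow h2 hd0.le
  rw [ENNReal.mul_rpow_of_nonneg _ _ hd0.le, ← ENNReal.rpow_mul, ← ENNReal.rpow_mul] at h3
  have e1 : 1 / d * d = 1 := by
    field_simp
  have e2 : 1 / d.conjExponent * d = d - 1 := by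
    rw [Real.conjExponent]
    have : d - 1 ≠ 0 := by
      intro h
      linarith
    field_simp
  rw [e1, e2, ENNReal.rpow_one] at h3
  exact h3

theorem jen_meas {n : ℕ} (N : ℕ) (b : Fin n → ℤ) : MeasurableSet (cube N b) := by
  have : cube N b = ⋂ k, {y : EE n | ⌊y k * 2 ^ N⌋ = b k} := by
    ext y
    simp [cube]
  rw [this]
  refine MeasurableSet.iInter fun k => ?_
  have hm : Measurable fun y : EE n => ⌊y k * 2 ^ N⌋ := by
    apply Int.measurable_floor.comp
    apply Measurable.mul_const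
    exact (EuclideanSpace.proj k : EE n →L[ℝ] ℝ).continuous.measurable
  exact hm (measurableSet_singleton (b k))

theorem jen_vol {n : ℕ} (N : ℕ) (b : Fin n → ℤ) :
    volume (cube N b) = (2 ^ (N * n) : ℝ≥0∞)⁻¹ := by
  have h := (EuclideanSpace.volume_preserving_symm_measurableEquiv_toLp (Fin n)).measure_preimage
    (s := Set.pi Set.univ fun k => Set.Ico ((b k : ℝ) / 2 ^ N) (((b k : ℝ) + 1) / 2 ^ N))
    (MeasurableSet.univ_pi fun k => measurableSet_Ico).nullMeasurableSet
  have e : cube N b = (MeasurableEquiv.toLp 2 (Fin n → ℝ)).symm ⁻¹'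
      (Set.pi Set.univ fun k => Set.Ico ((b k : ℝ) / 2 ^ N) (((b k : ℝ) + 1) / 2 ^ N)) := by
    ext y
    have hp : (0 : ℝ) < 2 ^ N := by positivity
    simp only [cube, Set.mem_ofPred_eq, Set.mem_preimage, Set.mem_pi, Set.mem_univ, true_implies,
      Set.mem_Ico]
    refine forall_congr' fun k => ?_
    rw [Int.floor_eq_iff, div_le_iff₀ hp, lt_div_iff₀ hp]
    rfl
  rw [e, h, Real.volume_pi_Ico]
  have : ∀ k : Fin n, ENNReal.ofReal (((b k : ℝ) + 1) / 2 ^ N - (b k : ℝ) / 2 ^ N)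
      = (2 ^ N : ℝ≥0∞)⁻¹ := by
    intro k
    have : ((b k : ℝ) + 1) / 2 ^ N - (b k : ℝ) / 2 ^ N = (2 ^ N : ℝ)⁻¹ := by
      field_simp
      ring
    rw [this, ENNReal.ofReal_inv_of_pos (by positivity)]
    congr 1
    rw [ENNReal.ofReal_pow (by norm_num)]
    simp
  rw [Finset.prod_congr rfl fun k _ => this k]
  rw [Finset.prod_const, Finset.card_univ, Fintype.card_fin, ← ENNReal.inv_pow, ← pow_mul]

theorem st_JEN : ST_JEN := by
  intro n N f d hf hd
  have hd0 : 0 < d := by linarith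
  have key : ∀ b : Fin n → ℤ, psi N f b ^ d ≤ 2 ^ (N * n) * ∫⁻ y in cube N b, f y ^ d := by
    intro b
    have h := jen_holder (volume.restrict (cube N b)) f hf d hd
    rw [Measure.restrict_apply_univ, jen_vol] at h
    unfold psi
    rw [ENNReal.mul_rpow_of_nonneg _ _ hd0.le]
    refine (mul_le_mul_right h _).trans ?_
    set I := ∫⁻ y in cube N b, f y ^ d
    set T : ℝ≥0∞ := 2 ^ (N * n) with hT
    have hT0 : T ≠ 0 := by
      rw [hT]
      exact pow_ne_zero _ (by norm_num)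
    have hT1 : T ≠ ⊤ := by
      rw [hT]
      exact ENNReal.pow_ne_top (by norm_num)
    rw [ENNReal.inv_rpow, ← ENNReal.rpow_neg, mul_comm I, ← mul_assoc,
      ← ENNReal.rpow_add _ _ hT0 hT1]
    have : d + -(d - 1) = 1 := by ring
    rw [this, ENNReal.rpow_one]
  refine (ENNReal.tsum_le_tsum key).trans ?_
  rw [ENNReal.tsum_mul_left]
  refine mul_le_mul_right ?_ _
  rw [← lintegral_iUnion (fun b => jen_meas N b)]
  · exact lintegral_mono' Measure.restrict_le_self le_rfl
  · intro b b' hbb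
    rw [Function.onFun, Set.disjoint_left]
    intro y hy hy'
    apply hbb
    funext k
    rw [← hy k, ← hy' k]

end Pool.Agent.Helper75.KM
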