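import Pool.Agent.Helper75.KM.StmtsC

set_option autoImplicit false

namespace Pool.Agent.Helper75.KM

open MeasureTheory
open scoped ENNReal

theorem st_STE : ST_STE := by
  classical
  intro m α hα hSB ε hε
  obtain ⟨C, hC, hS⟩ := hSB ε hε
  refine ⟨C, hC, ?_⟩
  intro N L _ x v hv φ
  have hα0 : 0 < α := by linarith
  have hd0 : (0 : ℝ) < 1 + (m : ℝ) / α := by positivity
  have hq0 : (0 : ℝ) < (m : ℝ) + α := by positivity
  have hCe : 0 < C * Real.exp (ε * N) := by positivity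
  set R : ℝ≥0∞ := (2 ^ N)⁻¹ * ∑' c : Fin m → ℤ, ∑ t : Fin (2 ^ N), φ c t ^ (1 + (m : ℝ) / α)
    with hR
  have h2 : ((2 : ℝ≥0∞) ^ N)⁻¹ ≠ 0 := by
    rw [ENNReal.inv_ne_zero]
    exact ENNReal.pow_ne_top (by norm_num)
  by_cases hRt : R = ⊤
  · rw [hRt, ENNReal.top_rpow_of_pos hα0, ENNReal.mul_top]
    · exact le_top
    · rw [Ne, ENNReal.ofReal_eq_zero, not_le]
      exact hCe
  have hts : ∑' c : Fin m → ℤ, ∑ t : Fin (2 ^ N), φ c t ^ (1 + (m : ℝ) / α) ≠ ⊤ := by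
    intro h
    apply hRt
    rw [hR, h, ENNReal.mul_top h2]
  have hfin : ∀ c t, φ c t ≠ ⊤ := by
    intro c t h
    have h1 := ENNReal.ne_top_of_tsum_ne_top hts c
    rw [ENNReal.sum_ne_top] at h1
    have h3 := h1 t (Finset.mem_univ t)
    rw [h, ENNReal.top_rpow_of_pos hd0] at h3
    exact h3 rfl
  set ψ : (Fin m → ℤ) → Fin (2 ^ N) → ℝ := fun c t => (φ c t).toReal with hψ
  have hφ : ∀ c t, φ c t = ENNReal.ofReal (ψ c t) := fun c t => (ENNReal.ofReal_toReal (hfin c t)).symm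
  have hψ0 : ∀ c t, 0 ≤ ψ c t := fun c t => ENNReal.toReal_nonneg
  set E : Finset ((Fin m → ℤ) × Fin (2 ^ N)) :=
    Finset.univ.image fun q : L × Fin (2 ^ N) => (ptn N x v q.1 q.2, q.2) with hE
  have hmem : ∀ l t, (ptn N x v l t, t) ∈ E := by
    intro l t
    rw [hE, Finset.mem_image]
    exact ⟨(l, t), Finset.mem_univ _, rfl⟩
  have key := hS N L x v hv ψ E hψ0 hmem
  have hav0 : ∀ l, 0 ≤ av N x v ψ l := by
    intro l
    unfold av
    exact div_nonneg (Finset.sum_nonneg fun t _ => hψ0 _ _) (by positivity)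
  have htwo : ((2 : ℝ≥0∞) ^ N)⁻¹ = ENNReal.ofReal ((2 : ℝ) ^ N)⁻¹ := by
    rw [ENNReal.ofReal_inv_of_pos (by positivity), ENNReal.ofReal_pow (by norm_num)]
    simp
  have hl : ∀ l, ((2 ^ N)⁻¹ * ∑ t, φ (ptn N x v l t) t) ^ ((m : ℝ) + α)
      = ENNReal.ofReal (av N x v ψ l ^ ((m : ℝ) + α)) := by
    intro l
    rw [← ENNReal.ofReal_rpow_of_nonneg (hav0 l) hq0.le]
    congr 1
    rw [Finset.sum_congr rfl fun t _ => hφ (ptn N x v l t) t,
      ← ENNReal.ofReal_sum_of_nonneg fun t _ => hψ0 _ _, htwo,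
      ← ENNReal.ofReal_mul (by positivity)]
    congr 1
    unfold av
    rw [div_eq_inv_mul]
  rw [Finset.sum_congr rfl fun l _ => hl l,
    ← ENNReal.ofReal_sum_of_nonneg fun l _ => Real.rpow_nonneg (hav0 l) _]
  refine (ENNReal.ofReal_le_ofReal key).trans ?_
  rw [ENNReal.ofReal_mul hCe.le]
  refine mul_le_mul_right ?_ _
  have hS0 : 0 ≤ ∑ e ∈ E, ψ e.1 e.2 ^ (1 + (m : ℝ) / α) :=
    Finset.sum_nonneg fun e _ => Real.rpow_nonneg (hψ0 _ _) _
  rw [← ENNReal.ofReal_rpow_of_nonneg (div_nonneg hS0 (by positivity)) hα0.le]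
  refine ENNReal.rpow_le_rpow ?_ hα0.le
  rw [div_eq_inv_mul, ENNReal.ofReal_mul (by positivity), ← htwo, hR]
  refine mul_le_mul_right ?_ _
  rw [ENNReal.ofReal_sum_of_nonneg fun e _ => Real.rpow_nonneg (hψ0 _ _) _]
  have h5 : ∀ e ∈ E, ENNReal.ofReal (ψ e.1 e.2 ^ (1 + (m : ℝ) / α))
      = φ e.1 e.2 ^ (1 + (m : ℝ) / α) := by
    intro e _
    rw [← ENNReal.ofReal_rpow_of_nonneg (hψ0 _ _) hd0.le, ← hφ]
  rw [Finset.sum_congr rfl h5]
  refine (ENNReal.sum_le_tsum E).trans ?_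
  rw [ENNReal.tsum_prod (f := fun c t => φ c t ^ (1 + (m : ℝ) / α))]
  refine ENNReal.tsum_le_tsum fun c => ?_
  rw [tsum_fintype]

end Pool.Agent.Helper75.KM
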